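import Pool.Agent.H73.SMD.Stmts

/-!
# Board `smd`, row CNE: cone properties
-/

set_option autoImplicit false

open Set Filter Topology MeasureTheory Metric

namespace Pool.SMD

open Pool.PHS Pool.LPC

theorem CNE_thm : CNEStmt := by
  intro r x ν hr hν κ₂ hκ₂
  have hs : HasStrictFDerivAt r (fderiv ℝ r x) x :=
    (hr.contDiffAt).hasStrictFDerivAt (by norm_num)
  set ε : ℝ := min κ₂ 1 / (2 * (1 + ‖ν‖)) with hε
  have hν0 : 0 ≤ ‖ν‖ := norm_nonneg ν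
  have hmin : 0 < min κ₂ 1 := lt_min hκ₂ one_pos
  have hεpos : 0 < ε := by positivity
  have hεν : ε * ‖ν‖ ≤ min κ₂ 1 / 2 := by
    have h1 : ε * (1 + ‖ν‖) = min κ₂ 1 / 2 := by
      rw [hε]
      field_simp
    nlinarith
  have hb := hs.isLittleO.bound hεpos
  rw [Metric.eventually_nhds_iff] at hb
  obtain ⟨δ, hδ, hball⟩ := hb
  have hkey : ∀ (y : Cn 2) (c : ℂ), ‖y - x‖ ≤ δ / (2 * (1 + ‖ν‖)) → ‖c‖ ≤ δ / (2 * (1 + ‖ν‖)) →
      |r (y + c • ν) - r y - c.re| ≤ min κ₂ 1 / 2 * ‖c‖ := by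
    intro y c hy hc
    have hκ : δ / (2 * (1 + ‖ν‖)) * (1 + ‖ν‖) = δ / 2 := by field_simp
    have hκ0 : 0 < δ / (2 * (1 + ‖ν‖)) := by positivity
    have h1 : ‖y - x‖ < δ := by nlinarith
    have h2 : ‖y + c • ν - x‖ < δ := by
      have h3 : y + c • ν - x = (y - x) + c • ν := by abel
      rw [h3]
      calc ‖(y - x) + c • ν‖ ≤ ‖y - x‖ + ‖c • ν‖ := norm_add_le _ _
        _ = ‖y - x‖ + ‖c‖ * ‖ν‖ := by rw [norm_smul]
        _ ≤ δ / (2 * (1 + ‖ν‖)) + δ / (2 * (1 + ‖ν‖)) * ‖ν‖ := by gcongr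
        _ = δ / 2 := by rw [← hκ]; ring
        _ < δ := by linarith
    have h4 := @hball (y + c • ν, y) (by
      rw [Prod.dist_eq, max_lt_iff, dist_eq_norm, dist_eq_norm]
      exact ⟨h2, h1⟩)
    simp only [add_sub_cancel_left, hν] at h4
    rw [Real.norm_eq_abs, norm_smul] at h4
    calc |r (y + c • ν) - r y - c.re| ≤ ε * (‖c‖ * ‖ν‖) := h4
      _ = ε * ‖ν‖ * ‖c‖ := by ring
      _ ≤ min κ₂ 1 / 2 * ‖c‖ := by gcongr
  refine ⟨δ / (2 * (1 + ‖ν‖)), by positivity, ?_, ?_⟩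
  · intro y c hy hc hry hc0 hre
    have h := (abs_le.1 (hkey y c hy hc)).2
    have hcpos : 0 < ‖c‖ := norm_pos_iff.2 hc0
    have h5 : min κ₂ 1 / 2 * ‖c‖ ≤ κ₂ / 2 * ‖c‖ := by
      gcongr
      exact min_le_left _ _
    nlinarith
  · intro y b hy hb0 hb1
    have hnb : ‖(b : ℂ)‖ = b := by rw [Complex.norm_real, Real.norm_of_nonneg hb0]
    have h := (abs_le.1 (hkey y (b : ℂ) hy (by rw [hnb]; exact hb1))).1
    rw [hnb, Complex.ofReal_re] at h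
    have h5 : min κ₂ 1 / 2 * b ≤ 1 / 2 * b := by
      gcongr
      exact min_le_right _ _
    linarith

end Pool.SMD
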